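import Pool.Agent.H78.GX.H78.GS.TA3

/-!
# Row ARNK of gs3_modules
-/

set_option autoImplicit false

open Finset Pool.Agent.H6.N4D Pool.Agent.H78.GX.H6.N4D Pool.Agent.H78.GX Pool.Agent.H78.GX.H78.GS

namespace Pool.Agent.H78.GX.H51.GS3

theorem card_le_of_rel (R : ℕ → ℕ → Prop) (A A' : Finset ℕ)
    (h1 : ∀ j ∈ A, ∃ i, i ∈ A' ∧ R j i) (h2 : ∀ i ∈ A', ∃! j, j ∈ A ∧ R j i) :
    A.card ≤ A'.card := by
  classical
  choose! g hg using h1
  apply card_le_card_of_injOn g (fun j hj => (hg j hj).1)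
  intro j hj j' hj' hjj
  obtain ⟨j0, _, hu⟩ := h2 (g j) (hg j hj).1
  have e1 := hu j ⟨hj, (hg j hj).2⟩
  have e2 := hu j' ⟨hj', by rw [hjj]; exact (hg j' hj').2⟩
  rw [e1, e2]

theorem bij_card {R : ℕ → ℕ → Prop} {A A' : Finset ℕ} (h : Bij R A A') : A.card = A'.card :=
  le_antisymm (card_le_of_rel R A A' (fun j hj => (h.1 j hj).exists) h.2)
    (card_le_of_rel (fun i j => R j i) A' A (fun i hi => (h.2 i hi).exists) h.1)

theorem pf_RNK (hPI : T_PI) : T_RNK := by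
  intro B c X₁ hG r₀
  obtain ⟨C, hC, hK⟩ := hPI B c X₁ hG (max 1 (r₀ : ℝ)) (le_max_left _ _)
  refine ⟨2 * C, by linarith, ?_⟩
  intro K hBK
  obtain ⟨X₀, hX⟩ := hK K hBK
  refine ⟨X₀, ?_⟩
  intro S hS hSK hSX RP RW e F he heK hF hI
  have hK1 : (1 : ℝ) ≤ K := by
    have := hS.hK
    rw [hSK] at this
    exact_mod_cast this
  have hK0 : (0 : ℝ) < K := by linarith
  have hN : 0 ≤ S.N := by
    have h1 := hS.hI1
    have hL : 0 ≤ S.L := Real.rpow_nonneg (Real.log_nonneg hS.hX) _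
    have h2 : 0 ≤ S.N * S.h := le_trans (by positivity) h1
    exact nonneg_of_mul_nonneg_left h2 hS.hh
  have he1 : e ≤ 1 := by
    refine heK.trans ?_
    rw [div_le_one (by positivity)]
    exact one_le_pow₀ hK1
  have hcd : ∀ t, (F t).card ≤ r₀ := by
    intro t
    have := card_le_card (hF t)
    rwa [card_range] at this
  set f : ℤ → ℂ := fun t => ((F t).card : ℂ) with hf
  have hfM : ∀ t, ‖f t‖ ≤ max 1 (r₀ : ℝ) := by
    intro t
    rw [hf]
    simp only [Complex.norm_natCast]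
    refine le_trans ?_ (le_max_right _ _)
    exact_mod_cast hcd t
  have hzero : ∀ t u, (F t).card = (F u).card → ¬ e < ‖f t - f u‖ := by
    intro t u h
    have : f t - f u = 0 := by simp only [hf, h, sub_self]
    rw [this, norm_zero]
    linarith
  have hE : Edg S e f := by
    refine ⟨?_, ?_⟩
    · refine le_trans (sum_le_sum fun p _ => ?_) hI.pr
      refine mul_le_mul_of_nonneg_left ?_ (by positivity)
      apply Par.cnt_mono
      rintro t _ ⟨h1, h2⟩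
      exact ⟨h1, fun hB => hzero _ _ (bij_card hB).symm h2⟩
    · intro w hw1 hw2
      refine le_trans ?_ (hI.sh w hw1 hw2)
      apply Par.cnt_mono
      rintro t _ ⟨h1, h2⟩
      exact ⟨h1, fun hB => hzero _ _ (bij_card hB).symm h2⟩
  obtain ⟨z, _, hz⟩ := hX S hS hSK hSX e f he he1 hfM hE
  have hbd : C * (K * e + 1 / (K : ℝ) ^ 2) * S.N ≤ 2 * C / (K : ℝ) ^ 2 * S.N := by
    apply mul_le_mul_of_nonneg_right _ hN
    have h1 : K * e ≤ 1 / (K : ℝ) ^ 2 := by
      calc K * e ≤ K * (1 / (K : ℝ) ^ 3) := mul_le_mul_of_nonneg_left heK hK0.le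
        _ = 1 / (K : ℝ) ^ 2 := by field_simp
    calc C * (K * e + 1 / (K : ℝ) ^ 2) ≤ C * (1 / (K : ℝ) ^ 2 + 1 / (K : ℝ) ^ 2) :=
          mul_le_mul_of_nonneg_left (by linarith) (by linarith)
      _ = 2 * C / (K : ℝ) ^ 2 := by ring
  by_cases hex : ∃ t₀ ∈ S.I, ‖f t₀ - z‖ ≤ 1 / 4
  · obtain ⟨t₀, _, ht0⟩ := hex
    refine ⟨(F t₀).card, hcd t₀, ?_⟩
    refine le_trans (Par.cnt_mono ?_) (hz.trans hbd)
    intro t _ hne
    by_contra hle
    have hle' := not_lt.1 hle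
    have h1 : ‖f t - f t₀‖ ≤ 1 / 2 := by
      calc ‖f t - f t₀‖ = ‖(f t - z) - (f t₀ - z)‖ := by congr 1; ring
        _ ≤ ‖f t - z‖ + ‖f t₀ - z‖ := norm_sub_le _ _
        _ ≤ 1 / 2 := by linarith
    have h2 : (1 : ℝ) ≤ ‖f t - f t₀‖ := by
      have h3 : f t - f t₀ = ((((F t).card : ℤ) - ((F t₀).card : ℤ) : ℤ) : ℂ) := by
        simp only [hf]
        push_cast
        ring
      rw [h3, Complex.norm_intCast]
      have h4 : ((F t).card : ℤ) - ((F t₀).card : ℤ) ≠ 0 := by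
        intro h5
        apply hne
        omega
      exact_mod_cast Int.one_le_abs h4
    linarith
  · refine ⟨0, Nat.zero_le _, ?_⟩
    refine le_trans (Par.cnt_mono ?_) (hz.trans hbd)
    intro t ht _
    by_contra hle
    exact hex ⟨t, ht, not_lt.1 hle⟩

end Pool.Agent.H78.GX.H51.GS3
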